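import Pool.Agent.W795.HE.Stm

/-!
# HE-IT: iteration lemma
-/

set_option autoImplicit false

open MeasureTheory Set Filter Topology

namespace Pool.Agent.W597.HE

open Pool.Agent.W795.HE

/-- a good point where a function is at most its average -/
theorem pick {G : ℝ → Prop} {f : ℝ → ℝ} {a b M α β : ℝ} (hab : a < b)
    (hsub : Ioo a b ⊆ Ioo α β) (hG : ∀ᵐ t ∂(volume.restrict (Ioo α β)), G t)
    (hf : IntegrableOn f (Ioo a b)) (hM : ∫ t in a..b, f t ≤ M) :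
    ∃ t ∈ Ioo a b, G t ∧ f t ≤ M / (b - a) := by
  have h1 : volume (Ioo a b) ≠ 0 := by
    rw [Real.volume_Ioo]
    simp [hab]
  have h2 : volume (Ioo a b) ≠ ⊤ := by
    rw [Real.volume_Ioo]
    exact ENNReal.ofReal_ne_top
  have h3 := measure_le_setAverage_pos h1 h2 hf
  have hG2 : ∀ᵐ t ∂(volume.restrict (Ioo a b)), G t :=
    ae_restrict_of_ae_restrict_of_subset hsub hG
  rw [ae_restrict_iff' measurableSet_Ioo] at hG2
  by_contra hcon
  push Not at hcon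
  have hav : (⨍ t in Ioo a b, f t) ≤ M / (b - a) := by
    rw [setAverage_eq, measureReal_def, Real.volume_Ioo, ENNReal.toReal_ofReal (by linarith),
      smul_eq_mul, ← integral_Ioc_eq_integral_Ioo, ← intervalIntegral.integral_of_le hab.le,
      inv_mul_eq_div]
    exact div_le_div_of_nonneg_right hM (by linarith)
  have h4 : {x ∈ Ioo a b | f x ≤ ⨍ t in Ioo a b, f t} ⊆ {t | ¬ (t ∈ Ioo a b → G t)} := by
    rintro x ⟨hx, hfx⟩ hGx
    have := hcon x hx (hGx hx)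
    linarith
  have h5 := measure_mono_null h4 hG2
  rw [h5] at h3
  exact lt_irrefl _ h3

/-- the hypotheses -/
structure Dat (C k L h0 τ : ℝ) (y d Ψ : ℝ → ℝ) : Prop where
  C1 : 1 ≤ C
  k1 : 1 ≤ k
  L0 : 0 ≤ L
  y0 : ∀ t, 0 ≤ y t
  d0 : ∀ t, 0 ≤ d t
  yi : IntegrableOn y (Ioo (τ - h0) τ)
  di : IntegrableOn (fun t => d t ^ 2) (Ioo (τ - h0) τ)
  dτ : d τ = 0
  mono : ∀ᵐ a ∂(volume.restrict (Ioo (τ - h0) τ)), ∀ b ∈ Icc a τ, ∫ s in a..b, y s ≤ Ψ b - Ψ a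
  tp : ∀ᵐ t1 ∂(volume.restrict (Ioo (τ - h0) τ)), ∀ a ∈ Ioc (τ - h0) τ, ∀ b ∈ Ioc (τ - h0) τ,
      a ≤ b → Ψ b - Ψ a ≤
        C * (∫ s in a..b, (y t1 + L + (y t1 ^ 2 + L) * (d s ^ 2 + d t1 ^ 2)))
          + C * ((d a + d b) * (d a + d b + d t1))
  dh : ∀ h : ℝ, 0 < h → h ≤ h0 → ∫ t in (τ - h)..τ, d t ^ 2 ≤ k ^ 2 * (h * Real.sqrt h)

/-- the property which is iterated -/
def PP (τ : ℝ) (Ψ : ℝ → ℝ) (h B : ℝ) : Prop :=
  ∀ a ∈ Icc (τ - h) τ, Ψ τ - Ψ a ≤ B * Real.sqrt h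

/-- small scales -/
def Sm (L h0 h : ℝ) : Prop := 0 < h ∧ h ≤ h0 ∧ h ≤ 1 ∧ L * Real.sqrt h ≤ 1 / 8

lemma Sm.mono {L h0 h h' : ℝ} (hL : 0 ≤ L) (H : Sm L h0 h) (h1 : 0 < h') (h2 : h' ≤ h) :
    Sm L h0 h' := by
  obtain ⟨a1, a2, a3, a4⟩ := H
  refine ⟨h1, h2.trans a2, h2.trans a3, le_trans ?_ a4⟩
  exact mul_le_mul_of_nonneg_left (Real.sqrt_le_sqrt h2) hL

variable {C k L h0 τ : ℝ} {y d Ψ : ℝ → ℝ}

theorem Dat.yii (D : Dat C k L h0 τ y d Ψ) {a b : ℝ} (ha : τ - h0 ≤ a) (hab : a ≤ b)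
    (hb : b ≤ τ) : IntervalIntegrable y volume a b := by
  rw [intervalIntegrable_iff_integrableOn_Ioo_of_le hab]
  exact D.yi.mono_set (Ioo_subset_Ioo ha hb)

theorem Dat.dii (D : Dat C k L h0 τ y d Ψ) {a b : ℝ} (ha : τ - h0 ≤ a) (hab : a ≤ b)
    (hb : b ≤ τ) : IntervalIntegrable (fun t => d t ^ 2) volume a b := by
  rw [intervalIntegrable_iff_integrableOn_Ioo_of_le hab]
  exact D.di.mono_set (Ioo_subset_Ioo ha hb)

theorem sqrt_two_mul_le {h : ℝ} : Real.sqrt (2 * h) ≤ 3 / 2 * Real.sqrt h := by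
  rw [Real.sqrt_mul (by norm_num)]
  apply mul_le_mul_of_nonneg_right _ (Real.sqrt_nonneg _)
  rw [Real.sqrt_le_left (by norm_num)]
  norm_num

/-- the good point `t1` -/
theorem Dat.s1 (D : Dat C k L h0 τ y d Ψ) {h B : ℝ} (hh : 0 < h) (hh0 : h ≤ h0) (hB : 1 ≤ B)
    (hP : PP τ Ψ h B) : ∃ t1, y t1 * Real.sqrt h ≤ 3 * B ∧ d t1 ^ 2 ≤ 3 * k ^ 2 * Real.sqrt h ∧
      ∀ a ∈ Ioc (τ - h0) τ, ∀ b ∈ Ioc (τ - h0) τ, a ≤ b → Ψ b - Ψ a ≤
        C * (∫ s in a..b, (y t1 + L + (y t1 ^ 2 + L) * (d s ^ 2 + d t1 ^ 2)))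
          + C * ((d a + d b) * (d a + d b + d t1)) := by
  have hs : 0 < Real.sqrt h := Real.sqrt_pos.mpr hh
  have hss : Real.sqrt h * Real.sqrt h = h := Real.mul_self_sqrt hh.le
  have hk := D.k1
  -- the starting point
  obtain ⟨a0, ha0, hm, -⟩ := pick (f := fun _ => (0 : ℝ)) (M := 0)
    (show τ - h < τ - 3 / 4 * h by linarith)
    (Ioo_subset_Ioo (by linarith : τ - h0 ≤ τ - h) (by linarith : τ - 3 / 4 * h ≤ τ)) D.mono
    (by simp) (by simp)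
  have ha0τ : a0 < τ := by linarith [ha0.2]
  have hy1 : ∫ t in a0..τ, y t ≤ B * Real.sqrt h :=
    (hm τ ⟨ha0τ.le, le_refl _⟩).trans (hP a0 ⟨ha0.1.le, ha0τ.le⟩)
  have hyi := D.yii (a := a0) (b := τ) (by linarith [ha0.1]) ha0τ.le (le_refl _)
  have hdi := D.dii (a := a0) (b := τ) (by linarith [ha0.1]) ha0τ.le (le_refl _)
  have hdi2 := D.dii (a := τ - h) (b := τ) (by linarith) (by linarith) (le_refl _)
  have hd1 : ∫ t in a0..τ, d t ^ 2 ≤ k ^ 2 * (h * Real.sqrt h) := by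
    refine le_trans ?_ (D.dh h hh hh0)
    exact intervalIntegral.integral_mono_interval ha0.1.le ha0τ.le (le_refl _)
      (ae_of_all _ fun t => sq_nonneg _) hdi2
  obtain ⟨P, hPe⟩ : ∃ P, P = B * Real.sqrt h := ⟨_, rfl⟩
  have hP0 : 0 < P := by rw [hPe]; positivity
  obtain ⟨Q, hQ⟩ : ∃ Q, Q = k ^ 2 * (h * Real.sqrt h) := ⟨_, rfl⟩
  have hQ0 : 0 < Q := by rw [hQ]; positivity
  rw [← hPe] at hy1
  rw [← hQ] at hd1
  have hint : ∫ t in a0..τ, (P⁻¹ * y t + Q⁻¹ * d t ^ 2) ≤ 2 := by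
    rw [intervalIntegral.integral_add (hyi.const_mul _) (hdi.const_mul _),
      intervalIntegral.integral_const_mul, intervalIntegral.integral_const_mul]
    have h1 : P⁻¹ * (∫ t in a0..τ, y t) ≤ 1 := by
      rw [inv_mul_le_iff₀ hP0, mul_one]; exact hy1
    have h2 : Q⁻¹ * (∫ t in a0..τ, d t ^ 2) ≤ 1 := by
      rw [inv_mul_le_iff₀ hQ0, mul_one]; exact hd1
    linarith
  obtain ⟨t1, ht1, htp, hle⟩ := pick ha0τ
    (Ioo_subset_Ioo (by linarith [ha0.1] : τ - h0 ≤ a0) (le_refl τ)) D.tp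
    (by
      rw [← intervalIntegrable_iff_integrableOn_Ioo_of_le ha0τ.le]
      exact (hyi.const_mul _).add (hdi.const_mul _)) hint
  have hlen : 2 / (τ - a0) ≤ 3 / h := by
    rw [div_le_div_iff₀ (by linarith) hh]
    linarith [ha0.2]
  have hle2 : P⁻¹ * y t1 + Q⁻¹ * d t1 ^ 2 ≤ 3 / h := hle.trans hlen
  have hy0 := D.y0 t1
  have hd0 : 0 ≤ d t1 ^ 2 := sq_nonneg _
  have hPi : 0 < P⁻¹ := inv_pos.mpr hP0
  have hQi : 0 < Q⁻¹ := inv_pos.mpr hQ0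
  refine ⟨t1, ?_, ?_, htp⟩
  · have h1 : P⁻¹ * y t1 ≤ 3 / h := by
      have : 0 ≤ Q⁻¹ * d t1 ^ 2 := by positivity
      linarith
    rw [inv_mul_le_iff₀ hP0, hPe] at h1
    have h2 := mul_le_mul_of_nonneg_right h1 hs.le
    refine h2.trans (le_of_eq ?_)
    have : B * Real.sqrt h * (3 / h) * Real.sqrt h = 3 * B * ((Real.sqrt h * Real.sqrt h) / h) := by
      ring
    rw [this, hss, div_self hh.ne', mul_one]
  · have h1 : Q⁻¹ * d t1 ^ 2 ≤ 3 / h := by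
      have : 0 ≤ P⁻¹ * y t1 := by positivity
      linarith
    rw [inv_mul_le_iff₀ hQ0, hQ] at h1
    refine h1.trans (le_of_eq ?_)
    field_simp

/-- one step -/
theorem Dat.step (D : Dat C k L h0 τ y d Ψ) {h B ρ : ℝ} (hS : Sm L h0 h) (hB : 1 ≤ B)
    (hρ : 0 < ρ) (hρ2 : ρ ≤ 1 / 2) (hP : PP τ Ψ h B) :
    PP τ Ψ (ρ ^ 4 * h) (87 * C * k ^ 2 * (B ^ 2 * ρ ^ 2 + 1 / ρ)) := by
  obtain ⟨hh, hh0, hh1, hL⟩ := hS
  obtain ⟨t1, hy1, hd1, htp⟩ := D.s1 hh hh0 hB hP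
  have hC := D.C1
  have hk := D.k1
  have hL0 := D.L0
  obtain ⟨s, hs⟩ : ∃ s, s = Real.sqrt h := ⟨_, rfl⟩
  have hs0 : 0 < s := by rw [hs]; exact Real.sqrt_pos.mpr hh
  have hss : s ^ 2 = h := by rw [hs]; exact Real.sq_sqrt hh.le
  have hs1 : s ≤ 1 := by
    rw [hs]; exact Real.sqrt_le_one.2 hh1
  rw [← hs] at hy1 hd1 hL
  obtain ⟨σ, hσ⟩ : ∃ σ, σ = ρ ^ 2 * s := ⟨_, rfl⟩
  have hσ0 : 0 < σ := by rw [hσ]; positivity
  have hρ1 : ρ ^ 2 ≤ 1 := by nlinarith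
  have hσs : σ ≤ s := by
    rw [hσ]; exact mul_le_of_le_one_left hs0.le hρ1
  obtain ⟨l, hl⟩ : ∃ l, l = ρ ^ 4 * h := ⟨_, rfl⟩
  have hlσ : l = σ ^ 2 := by rw [hl, hσ, ← hss]; ring
  have hl0 : 0 < l := by rw [hlσ]; positivity
  have hsl : Real.sqrt l = σ := by rw [hlσ]; exact Real.sqrt_sq hσ0.le
  have hρ4 : ρ ^ 4 ≤ 1 / 16 := by
    have : ρ ^ 4 ≤ (1 / 2 : ℝ) ^ 4 := pow_le_pow_left₀ hρ.le hρ2 4
    norm_num at this ⊢
    exact this
  have hl2 : 2 * l ≤ h := by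
    rw [hl]; nlinarith
  -- the point `a`
  have hd2l : ∫ t in (τ - 2 * l)..τ, d t ^ 2 ≤ 3 * k ^ 2 * (l * σ) := by
    refine (D.dh (2 * l) (by linarith) (by linarith)).trans ?_
    have h1 := sqrt_two_mul_le (h := l)
    rw [hsl] at h1
    have h2 : 2 * l * Real.sqrt (2 * l) ≤ 2 * l * (3 / 2 * σ) :=
      mul_le_mul_of_nonneg_left h1 (by linarith)
    have h3 : 0 < k ^ 2 := by positivity
    nlinarith
  have hdd := D.dii (a := τ - 2 * l) (b := τ) (by linarith) (by linarith) (le_refl _)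
  obtain ⟨a, ha, hma, hda⟩ := pick (show τ - 2 * l < τ - l by linarith)
    (Ioo_subset_Ioo (by linarith : τ - h0 ≤ τ - 2 * l) (by linarith : τ - l ≤ τ)) D.mono
    (f := fun t => d t ^ 2) (M := 3 * k ^ 2 * (l * σ))
    (by
      rw [← intervalIntegrable_iff_integrableOn_Ioo_of_le (by linarith)]
      exact D.dii (by linarith) (by linarith) (by linarith))
    (by
      refine le_trans ?_ hd2l
      exact intervalIntegral.integral_mono_interval (le_refl _) (by linarith) (by linarith)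
        (ae_of_all _ fun t => sq_nonneg _) hdd)
  have hda' : d a ^ 2 ≤ 3 * k ^ 2 * σ := by
    refine hda.trans (le_of_eq ?_)
    have e1 : τ - l - (τ - 2 * l) = l := by ring
    rw [e1]
    field_simp
  have haτ : a ≤ τ := by linarith [ha.2]
  have hτa : τ - a ≤ 2 * l := by linarith [ha.1]
  have hmain := htp a ⟨by linarith [ha.1], haτ⟩ τ ⟨by linarith, le_refl _⟩ haτ
  rw [D.dτ, add_zero] at hmain
  obtain ⟨y1, hy1e⟩ : ∃ y1, y1 = y t1 := ⟨_, rfl⟩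
  obtain ⟨d1, hd1e⟩ : ∃ d1, d1 = d t1 := ⟨_, rfl⟩
  obtain ⟨da, hdae⟩ : ∃ da, da = d a := ⟨_, rfl⟩
  have hy10 : 0 ≤ y1 := by rw [hy1e]; exact D.y0 _
  have hd10 : 0 ≤ d1 := by rw [hd1e]; exact D.d0 _
  have hda0 : 0 ≤ da := by rw [hdae]; exact D.d0 _
  rw [← hy1e, ← hd1e, ← hdae] at hmain
  rw [← hy1e] at hy1
  rw [← hd1e] at hd1
  rw [← hdae] at hda'
  -- the integral
  have hdia := D.dii (a := a) (b := τ) (by linarith [ha.1]) haτ (le_refl _)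
  have hI : ∫ t in a..τ, (y1 + L + (y1 ^ 2 + L) * (d t ^ 2 + d1 ^ 2)) =
      (τ - a) * (y1 + L) + (y1 ^ 2 + L) * ((∫ t in a..τ, d t ^ 2) + (τ - a) * d1 ^ 2) := by
    rw [intervalIntegral.integral_add (by simp)
      ((hdia.add (by simp)).const_mul _), intervalIntegral.integral_const_mul,
      intervalIntegral.integral_add hdia (by simp), intervalIntegral.integral_const,
      intervalIntegral.integral_const, smul_eq_mul, smul_eq_mul]
  have hId : ∫ t in a..τ, d t ^ 2 ≤ 3 * k ^ 2 * (l * σ) := by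
    refine le_trans ?_ hd2l
    exact intervalIntegral.integral_mono_interval ha.1.le haτ (le_refl _)
      (ae_of_all _ fun t => sq_nonneg _) hdd
  have hI2 : ∫ t in a..τ, (y1 + L + (y1 ^ 2 + L) * (d t ^ 2 + d1 ^ 2)) ≤
      2 * l * (y1 + L) + (y1 ^ 2 + L) * (3 * k ^ 2 * (l * σ) + 2 * l * d1 ^ 2) := by
    rw [hI]
    have e1 : (τ - a) * (y1 + L) ≤ 2 * l * (y1 + L) :=
      mul_le_mul_of_nonneg_right hτa (by positivity)
    have e2 : (τ - a) * d1 ^ 2 ≤ 2 * l * d1 ^ 2 := mul_le_mul_of_nonneg_right hτa (by positivity)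
    have e3 : (y1 ^ 2 + L) * ((∫ t in a..τ, d t ^ 2) + (τ - a) * d1 ^ 2) ≤
        (y1 ^ 2 + L) * (3 * k ^ 2 * (l * σ) + 2 * l * d1 ^ 2) :=
      mul_le_mul_of_nonneg_left (by linarith) (by positivity)
    linarith
  -- the terms
  have hk2 : 1 ≤ k ^ 2 := one_le_pow₀ hk
  have hB2 : B ≤ B ^ 2 := by nlinarith
  have hyl : y1 * σ ≤ 3 * B * ρ ^ 2 := by
    rw [hσ]
    have : y1 * (ρ ^ 2 * s) = y1 * s * ρ ^ 2 := by ring
    rw [this]
    exact mul_le_mul_of_nonneg_right hy1 (by positivity)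
  have hylσ : y1 * σ ≤ 3 * B := hyl.trans (by nlinarith)
  have hy0σ : 0 ≤ y1 * σ := by positivity
  -- (i)
  have t1' : 2 * l * y1 ≤ 6 * B * ρ ^ 2 * σ := by
    rw [hlσ]
    have := mul_le_mul_of_nonneg_right hyl (show 0 ≤ 2 * σ by positivity)
    linarith
  have hLσ : L * σ ≤ 1 / 8 := by
    refine le_trans ?_ hL
    exact mul_le_mul_of_nonneg_left hσs hL0
  have t2' : 2 * l * L ≤ 1 / 4 * σ := by
    rw [hlσ]
    have := mul_le_mul_of_nonneg_right hLσ (show 0 ≤ 2 * σ by positivity)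
    linarith
  -- `(y1 σ)^2 ≤ 9 B² ρ⁴`
  have hsq : (y1 * σ) ^ 2 ≤ 9 * B ^ 2 * ρ ^ 2 := by
    have h1 : (y1 * σ) ^ 2 ≤ (3 * B * ρ ^ 2) * (3 * B) := by
      rw [pow_two]
      exact mul_le_mul hyl hylσ hy0σ (by positivity)
    linarith
  have t3' : y1 ^ 2 * (3 * k ^ 2 * (l * σ)) ≤ 27 * B ^ 2 * k ^ 2 * ρ ^ 2 * σ := by
    rw [hlσ]
    have h1 := mul_le_mul_of_nonneg_right hsq (show 0 ≤ 3 * k ^ 2 * σ by positivity)
    have e1 : y1 ^ 2 * (3 * k ^ 2 * (σ ^ 2 * σ)) = (y1 * σ) ^ 2 * (3 * k ^ 2 * σ) := by ring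
    have e2 : 27 * B ^ 2 * k ^ 2 * ρ ^ 2 * σ = 9 * B ^ 2 * ρ ^ 2 * (3 * k ^ 2 * σ) := by ring
    rw [e1, e2]
    exact h1
  have t4' : y1 ^ 2 * (2 * l * d1 ^ 2) ≤ 54 * B ^ 2 * k ^ 2 * ρ ^ 2 * σ := by
    rw [hlσ]
    have h1 : (y1 * σ) ^ 2 * (2 * d1 ^ 2) ≤ (y1 * σ) ^ 2 * (2 * (3 * k ^ 2 * s)) :=
      mul_le_mul_of_nonneg_left (by linarith) (by positivity)
    have h2 : (y1 * σ) * (y1 * s) ≤ (3 * B * ρ ^ 2) * (3 * B) :=
      mul_le_mul hyl hy1 (by positivity) (by positivity)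
    have h3 := mul_le_mul_of_nonneg_right h2 (show 0 ≤ 6 * k ^ 2 * σ by positivity)
    have e1 : y1 ^ 2 * (2 * σ ^ 2 * d1 ^ 2) = (y1 * σ) ^ 2 * (2 * d1 ^ 2) := by ring
    have e2 : (y1 * σ) ^ 2 * (2 * (3 * k ^ 2 * s)) = y1 * σ * (y1 * s) * (6 * k ^ 2 * σ) := by ring
    rw [e1]
    refine h1.trans ?_
    rw [e2]
    refine h3.trans (le_of_eq ?_)
    ring
  have hLσσ : L * σ * σ ≤ 1 / 8 := by
    have := mul_le_mul_of_nonneg_left (hσs.trans hs1) (show 0 ≤ L * σ by positivity)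
    linarith
  have t5' : L * (3 * k ^ 2 * (l * σ)) ≤ k ^ 2 * σ := by
    rw [hlσ]
    have h1 := mul_le_mul_of_nonneg_right hLσσ (show 0 ≤ 3 * k ^ 2 * σ by positivity)
    have h2 : 0 ≤ k ^ 2 * σ := by positivity
    have e1 : L * (3 * k ^ 2 * (σ ^ 2 * σ)) = L * σ * σ * (3 * k ^ 2 * σ) := by ring
    rw [e1]
    linarith
  have t6' : L * (2 * l * d1 ^ 2) ≤ k ^ 2 * σ := by
    rw [hlσ]
    have h0 : L * (2 * σ ^ 2 * d1 ^ 2) ≤ L * (2 * σ ^ 2 * (3 * k ^ 2 * s)) :=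
      mul_le_mul_of_nonneg_left (mul_le_mul_of_nonneg_left hd1 (by positivity)) hL0
    have h1 : L * σ * s ≤ 1 / 8 := by
      have := mul_le_mul_of_nonneg_left hs1 (show 0 ≤ L * σ by positivity)
      linarith
    have h2 := mul_le_mul_of_nonneg_right h1 (show 0 ≤ 6 * k ^ 2 * σ by positivity)
    have h3 : 0 ≤ k ^ 2 * σ := by positivity
    have e1 : L * (2 * σ ^ 2 * (3 * k ^ 2 * s)) = L * σ * s * (6 * k ^ 2 * σ) := by ring
    rw [e1] at h0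
    linarith
  have t8' : da * d1 ≤ 3 * k ^ 2 * σ / ρ := by
    apply le_of_sq_le_sq _ (by positivity)
    have h1 : (da * d1) ^ 2 ≤ (3 * k ^ 2 * σ) * (3 * k ^ 2 * s) := by
      rw [mul_pow]
      exact mul_le_mul hda' hd1 (by positivity) (by positivity)
    refine h1.trans (le_of_eq ?_)
    rw [div_pow, eq_div_iff (by positivity)]
    rw [hσ]
    ring
  have hρinv : 1 ≤ 1 / ρ := by
    rw [le_div_iff₀ hρ]; linarith
  have hfin : Ψ τ - Ψ a ≤ 87 * C * k ^ 2 * (B ^ 2 * ρ ^ 2 + 1 / ρ) * σ := by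
    have hsum : 2 * l * (y1 + L) + (y1 ^ 2 + L) * (3 * k ^ 2 * (l * σ) + 2 * l * d1 ^ 2) +
        da * (da + d1) ≤ 87 * k ^ 2 * (B ^ 2 * ρ ^ 2 + 1 / ρ) * σ := by
      have u1 : 6 * B * ρ ^ 2 * σ ≤ 6 * B ^ 2 * k ^ 2 * ρ ^ 2 * σ := by
        have h1 : B ≤ B ^ 2 * k ^ 2 := by nlinarith
        have h2 := mul_le_mul_of_nonneg_right h1 (show 0 ≤ 6 * ρ ^ 2 * σ by positivity)
        linarith
      have u2 : 1 / 4 * σ ≤ 1 / 4 * (k ^ 2 * (1 / ρ)) * σ := by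
        have h1 : 1 ≤ k ^ 2 * (1 / ρ) := by nlinarith
        have h2 := mul_le_mul_of_nonneg_right h1 (show 0 ≤ 1 / 4 * σ by positivity)
        linarith
      have u3 : k ^ 2 * σ ≤ k ^ 2 * (1 / ρ) * σ := by
        have h2 := mul_le_mul_of_nonneg_right hρinv (show 0 ≤ k ^ 2 * σ by positivity)
        linarith
      have u4 : 3 * k ^ 2 * σ / ρ = 3 * (k ^ 2 * (1 / ρ) * σ) := by field_simp
      have u5 : 0 ≤ k ^ 2 * (1 / ρ) * σ := by positivity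
      have u6 : 87 * k ^ 2 * (B ^ 2 * ρ ^ 2 + 1 / ρ) * σ = 87 * (B ^ 2 * k ^ 2 * ρ ^ 2 * σ) +
          87 * (k ^ 2 * (1 / ρ) * σ) := by ring
      rw [u4] at t8'
      rw [u6]
      nlinarith
    have h1 := mul_le_mul_of_nonneg_left hsum (show 0 ≤ C by linarith)
    have h2 := mul_le_mul_of_nonneg_left hI2 (show 0 ≤ C by linarith)
    linarith
  rw [← hl]
  intro a' ha'
  rw [hsl]
  refine le_trans ?_ hfin
  have haa' : a ≤ a' := by linarith [ha.2, ha'.1]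
  have h1 := hma a' ⟨haa', ha'.2⟩
  have h2 : 0 ≤ ∫ t in a..a', y t := intervalIntegral.integral_nonneg haa' fun t _ => D.y0 t
  linarith

/-- halving -/
theorem Dat.half (D : Dat C k L h0 τ y d Ψ) {h B K : ℝ} (hK : K = 87 * C * k ^ 2)
    (hS : Sm L h0 h) (hB : 64 * K ^ 3 ≤ B) (hP : PP τ Ψ h B) :
    PP τ Ψ ((16 * K ^ 2 * B ^ 2)⁻¹ * h) (B / 2) := by
  have hC := D.C1
  have hk := D.k1
  have hk2 : 1 ≤ k ^ 2 := one_le_pow₀ hk
  have hK1 : 1 ≤ K := by rw [hK]; nlinarith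
  have hK3 : 1 ≤ K ^ 3 := one_le_pow₀ hK1
  have hB1 : 1 ≤ B := by linarith
  obtain ⟨z, hz⟩ : ∃ z, z = Real.sqrt (K * B) := ⟨_, rfl⟩
  have hKB : 1 ≤ K * B := by nlinarith
  have hz2 : z ^ 2 = K * B := by rw [hz]; exact Real.sq_sqrt (by positivity)
  have hz0 : 0 < z := by rw [hz]; exact Real.sqrt_pos.mpr (by positivity)
  have hz1 : 1 ≤ z := by
    rw [hz]; exact Real.one_le_sqrt.2 hKB
  have hρ : 0 < 1 / (2 * z) := by positivity
  have hρ2 : 1 / (2 * z) ≤ 1 / 2 := by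
    apply one_div_le_one_div_of_le (by norm_num); linarith
  have key := D.step hS hB1 hρ hρ2 hP
  have e1 : (1 / (2 * z)) ^ 4 = (16 * K ^ 2 * B ^ 2)⁻¹ := by
    have : (1 / (2 * z)) ^ 4 = (16 * (z ^ 2) ^ 2)⁻¹ := by
      rw [one_div, inv_pow]; congr 1; ring
    rw [this, hz2]; congr 1; ring
  have e2 : 87 * C * k ^ 2 * (B ^ 2 * (1 / (2 * z)) ^ 2 + 1 / (1 / (2 * z))) ≤ B / 2 := by
    rw [← hK]
    have h1 : K * (B ^ 2 * (1 / (2 * z)) ^ 2) = B / 4 := by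
      have : (1 / (2 * z)) ^ 2 = (4 * z ^ 2)⁻¹ := by
        rw [one_div, inv_pow]; congr 1; ring
      rw [this, hz2]
      have hK0 : K ≠ 0 := by positivity
      have hB0 : B ≠ 0 := by positivity
      field_simp
    have h2 : K * (1 / (1 / (2 * z))) ≤ B / 4 := by
      rw [one_div_one_div]
      have h3 : 8 * K * z ≤ B := by
        apply le_of_sq_le_sq _ (by positivity)
        have : (8 * K * z) ^ 2 = 64 * K ^ 2 * z ^ 2 := by ring
        rw [this, hz2]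
        have h4 := mul_le_mul_of_nonneg_right hB (show 0 ≤ B by positivity)
        have : 64 * K ^ 2 * (K * B) = 64 * K ^ 3 * B := by ring
        rw [this, pow_two B]
        exact h4
      linarith
    rw [mul_add]
    linarith
  rw [e1] at key
  intro a ha
  refine (key a ha).trans (mul_le_mul_of_nonneg_right e2 (Real.sqrt_nonneg _))

lemma PP.mono {h B B' : ℝ} (hP : PP τ Ψ h B) (hB : B ≤ B') : PP τ Ψ h B' :=
  fun a ha => (hP a ha).trans (mul_le_mul_of_nonneg_right hB (Real.sqrt_nonneg _))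

/-- first phase -/
theorem phase1 {C k L h0 K : ℝ} (hL0 : 0 ≤ L) (hK : K = 87 * C * k ^ 2) (hK1 : 1 ≤ K) (n : ℕ) :
    ∀ h, Sm L h0 h → ∃ h', 0 < h' ∧ h' ≤ h ∧ ∀ (τ : ℝ) (y d Ψ : ℝ → ℝ), Dat C k L h0 τ y d Ψ →
      PP τ Ψ h (2 ^ n * (64 * K ^ 3)) → PP τ Ψ h' (64 * K ^ 3) := by
  induction n with
  | zero =>
    intro h hS
    refine ⟨h, hS.1, le_refl _, fun τ y d Ψ _ hP => ?_⟩
    simpa using hP
  | succ n ih =>
    intro h hS
    have hB0 : 0 < 2 ^ (n + 1) * (64 * K ^ 3) := by positivity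
    have hB1 : 64 * K ^ 3 ≤ 2 ^ (n + 1) * (64 * K ^ 3) :=
      le_mul_of_one_le_left (by positivity) (one_le_pow₀ (by norm_num))
    obtain ⟨B, hB⟩ : ∃ B, B = 2 ^ (n + 1) * (64 * K ^ 3) := ⟨_, rfl⟩
    rw [← hB] at hB0 hB1
    have hK3 : 1 ≤ K ^ 3 := one_le_pow₀ hK1
    have hBone : 1 ≤ B := by linarith
    have hr0 : 0 < (16 * K ^ 2 * B ^ 2)⁻¹ := by positivity
    have hr1 : (16 * K ^ 2 * B ^ 2)⁻¹ ≤ 1 := by
      apply inv_le_one_of_one_le₀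
      have h1 : 1 ≤ K ^ 2 := one_le_pow₀ hK1
      have h2 : 1 ≤ B ^ 2 := one_le_pow₀ hBone
      nlinarith
    have hS' : Sm L h0 ((16 * K ^ 2 * B ^ 2)⁻¹ * h) :=
      hS.mono hL0 (mul_pos hr0 hS.1) (mul_le_of_le_one_left hS.1.le hr1)
    obtain ⟨h', h1, h2, h3⟩ := ih _ hS'
    refine ⟨h', h1, h2.trans (mul_le_of_le_one_left hS.1.le hr1), fun τ y d Ψ D hP => ?_⟩
    apply h3 τ y d Ψ D
    rw [← hB] at hP
    have h4 := D.half hK hS hB1 hP
    have h5 : B / 2 = 2 ^ n * (64 * K ^ 3) := by rw [hB, pow_succ]; ring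
    rw [h5] at h4
    exact h4

/-- second phase -/
theorem Dat.phase2 (D : Dat C k L h0 τ y d Ψ) {K h' : ℝ} (hK : K = 87 * C * k ^ 2)
    (hS : Sm L h0 h') (hP : PP τ Ψ h' (64 * K ^ 3)) (j : ℕ) :
    PP τ Ψ ((16 * K ^ 2 * (64 * K ^ 3) ^ 2)⁻¹ ^ j * h') (64 * K ^ 3) := by
  have hC := D.C1
  have hk := D.k1
  have hk2 : 1 ≤ k ^ 2 := one_le_pow₀ hk
  have hK1 : 1 ≤ K := by rw [hK]; nlinarith
  induction j with
  | zero => simpa using hP
  | succ j ih =>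
    have hK2 : 1 ≤ K ^ 2 := one_le_pow₀ hK1
    have hK3 : 1 ≤ K ^ 3 := one_le_pow₀ hK1
    have hK6 : 1 ≤ (64 * K ^ 3) ^ 2 := one_le_pow₀ (by linarith)
    have hr0 : 0 < (16 * K ^ 2 * (64 * K ^ 3) ^ 2)⁻¹ := by positivity
    have hr1 : (16 * K ^ 2 * (64 * K ^ 3) ^ 2)⁻¹ ≤ 1 := by
      apply inv_le_one_of_one_le₀
      nlinarith
    have hS' : Sm L h0 ((16 * K ^ 2 * (64 * K ^ 3) ^ 2)⁻¹ ^ j * h') :=
      hS.mono D.L0 (mul_pos (pow_pos hr0 j) hS.1)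
        (mul_le_of_le_one_left hS.1.le (pow_le_one₀ hr0.le hr1))
    have h1 := D.half hK hS' (le_refl _) ih
    rw [pow_succ', mul_assoc]
    exact h1.mono (by linarith [show 0 < 64 * K ^ 3 by positivity])

/-- all small scales -/
theorem Dat.all (D : Dat C k L h0 τ y d Ψ) {K h' : ℝ} (hK : K = 87 * C * k ^ 2)
    (hS : Sm L h0 h') (hP : PP τ Ψ h' (64 * K ^ 3)) {h : ℝ} (hh : 0 < h) (hh' : h ≤ h') :
    PP τ Ψ h (4 * K * (64 * K ^ 3) ^ 2) := by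
  have hC := D.C1
  have hk := D.k1
  have hk2 : 1 ≤ k ^ 2 := one_le_pow₀ hk
  have hK1 : 1 ≤ K := by rw [hK]; nlinarith
  have hK2 : 1 ≤ K ^ 2 := one_le_pow₀ hK1
  have hK3 : 1 ≤ K ^ 3 := one_le_pow₀ hK1
  have hK6 : 1 ≤ (64 * K ^ 3) ^ 2 := one_le_pow₀ (by linarith)
  obtain ⟨r, hr⟩ : ∃ r, r = (16 * K ^ 2 * (64 * K ^ 3) ^ 2)⁻¹ := ⟨_, rfl⟩
  have hr0 : 0 < r := by rw [hr]; positivity
  have hr1 : r < 1 := by
    rw [hr]
    apply inv_lt_one_of_one_lt₀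
    nlinarith
  obtain ⟨j, hj1, hj2⟩ := exists_nat_pow_near_of_lt_one (x := h / h') (div_pos hh hS.1)
    ((div_le_one hS.1).2 hh') hr0 hr1
  rw [lt_div_iff₀ hS.1] at hj1
  rw [div_le_iff₀ hS.1] at hj2
  have h1 := D.phase2 hK hS hP j
  rw [← hr] at h1
  intro a ha
  have h2 := h1 a ⟨by linarith [ha.1], ha.2⟩
  refine h2.trans ?_
  have hK0 : 0 < K := by linarith
  -- `√(r ^ j h') ≤ 4 K (64 K³) √h`
  have h3 : Real.sqrt (r ^ j * h') ≤ 4 * K * (64 * K ^ 3) * Real.sqrt h := by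
    rw [Real.sqrt_le_left (by positivity)]
    have h4 : (4 * K * (64 * K ^ 3) * Real.sqrt h) ^ 2 = r⁻¹ * h := by
      rw [mul_pow, Real.sq_sqrt hh.le, hr, inv_inv]
      ring
    rw [h4]
    rw [pow_succ'] at hj1
    have h5 : r ^ j * h' = r⁻¹ * (r * r ^ j * h') := by
      field_simp
    rw [h5]
    exact mul_le_mul_of_nonneg_left hj1.le (by positivity)
  have h4 := mul_le_mul_of_nonneg_left h3 (show 0 ≤ 64 * K ^ 3 by positivity)
  refine h4.trans (le_of_eq ?_)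
  ring

theorem proof : S_it := by
  intro C0 k0 hC0 hk0
  obtain ⟨C, hC⟩ : ∃ C, C = C0 + 1 := ⟨_, rfl⟩
  obtain ⟨k, hk⟩ : ∃ k, k = k0 + 1 := ⟨_, rfl⟩
  have hC1 : 1 ≤ C := by linarith
  have hk1 : 1 ≤ k := by linarith
  obtain ⟨K, hK⟩ : ∃ K, K = 87 * C * k ^ 2 := ⟨_, rfl⟩
  have hk2 : 1 ≤ k ^ 2 := one_le_pow₀ hk1
  have hK1 : 1 ≤ K := by rw [hK]; nlinarith
  have hK0 : 0 < K := by linarith
  obtain ⟨M1, hM1⟩ : ∃ M1, M1 = 4 * K * (64 * K ^ 3) ^ 2 := ⟨_, rfl⟩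
  have hM10 : 0 < M1 := by rw [hM1]; positivity
  refine ⟨2 * M1, by positivity, ?_⟩
  intro L E h0 hL hE hh0
  -- the first scale
  obtain ⟨hs, hS, hslt⟩ : ∃ hs, Sm L h0 hs ∧ hs < h0 := by
    refine ⟨min (h0 / 2) (min 1 (1 / (8 * (L + 1)) ^ 2)), ⟨?_, ?_, ?_, ?_⟩, ?_⟩
    · exact lt_min (by positivity) (lt_min one_pos (by positivity))
    · exact (min_le_left _ _).trans (by linarith)
    · exact (min_le_right _ _).trans (min_le_left _ _)
    · have h1 : Real.sqrt (min (h0 / 2) (min 1 (1 / (8 * (L + 1)) ^ 2))) ≤ 1 / (8 * (L + 1)) := by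
        rw [Real.sqrt_le_left (by positivity), div_pow, one_pow]
        exact (min_le_right _ _).trans (min_le_right _ _)
      refine (mul_le_mul_of_nonneg_left h1 hL).trans ?_
      rw [mul_one_div, div_le_div_iff₀ (by positivity) (by norm_num)]
      linarith
    · exact lt_of_le_of_lt (min_le_left _ _) (by linarith)
  have hhs := hS.1
  obtain ⟨n, hn⟩ := pow_unbounded_of_one_lt (E / Real.sqrt hs / (64 * K ^ 3)) one_lt_two
  obtain ⟨h', h1', h2', h3'⟩ := phase1 (C := C) (k := k) hL hK hK1 n hs hS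
  have hS' := hS.mono hL h1' h2'
  refine ⟨h' / 2, by positivity, by linarith [hS'.2.1], ?_⟩
  intro τ y d Ψ hy hd hyi hdi hdτ hmono hE' htp hdh h hh hh1
  have D : Dat C k L h0 τ y d Ψ :=
    { C1 := hC1, k1 := hk1, L0 := hL, y0 := hy, d0 := hd, yi := hyi, di := hdi, dτ := hdτ,
      mono := hmono
      tp := by
        filter_upwards [htp] with t1 ht1
        intro a ha b hb hab
        refine (ht1 a ha b hb hab).trans ?_
        have e1 : 0 ≤ ∫ s in a..b, (y t1 + L + (y t1 ^ 2 + L) * (d s ^ 2 + d t1 ^ 2)) := by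
          refine intervalIntegral.integral_nonneg hab fun s _ => ?_
          have := hy t1
          positivity
        have e2 : 0 ≤ (d a + d b) * (d a + d b + d t1) := by
          have := hd a
          have := hd b
          have := hd t1
          positivity
        rw [hC]
        nlinarith
      dh := by
        intro h hh hh0
        refine (hdh h hh hh0).trans ?_
        have e1 : h ^ (3 / 2 : ℝ) = h * Real.sqrt h := by
          rw [Real.sqrt_eq_rpow, show (3 / 2 : ℝ) = 1 + 1 / 2 by norm_num, Real.rpow_add hh,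
            Real.rpow_one]
        rw [e1]
        refine mul_le_mul_of_nonneg_right ?_ (by positivity)
        rw [hk]
        nlinarith }
  -- the start
  have hstart : PP τ Ψ hs (2 ^ n * (64 * K ^ 3)) := by
    obtain ⟨a, ha, ⟨hma, hEa⟩, -⟩ := pick (f := fun _ => (0 : ℝ)) (M := 0)
      (show τ - h0 < τ - hs by linarith)
      (Ioo_subset_Ioo (le_refl _) (by linarith : τ - hs ≤ τ)) (hmono.and hE') (by simp) (by simp)
    intro a' ha'
    have haa' : a ≤ a' := by linarith [ha.2, ha'.1]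
    have e1 := hma a' ⟨haa', ha'.2⟩
    have e2 : 0 ≤ ∫ t in a..a', y t := intervalIntegral.integral_nonneg haa' fun t _ => hy t
    have hsq : 0 < Real.sqrt hs := Real.sqrt_pos.mpr hhs
    rw [div_lt_iff₀ (by positivity), div_lt_iff₀ hsq] at hn
    linarith
  have hP' := h3' τ y d Ψ D hstart
  have hall := fun {h : ℝ} (a : 0 < h) (b : h ≤ h') => D.all hK hS' hP' a b
  have p1 := hall hh (by linarith) (τ - h) ⟨le_refl _, by linarith⟩
  have p2 := hall (h := 2 * h) (by linarith) (by linarith)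
  rw [← hM1] at p1 p2
  have hsh : 0 < Real.sqrt h := Real.sqrt_pos.mpr hh
  constructor
  · obtain ⟨a, ha, hma, -⟩ := pick (f := fun _ => (0 : ℝ)) (M := 0)
      (show τ - 2 * h < τ - h by linarith)
      (Ioo_subset_Ioo (by linarith [hS'.2.1] : τ - h0 ≤ τ - 2 * h) (by linarith : τ - h ≤ τ))
      hmono (by simp) (by simp)
    have e1 := hma τ ⟨by linarith [ha.2], le_refl _⟩
    have e2 := p2 a ⟨ha.1.le, by linarith [ha.2]⟩
    have e3 : ∫ t in (τ - h)..τ, y t ≤ ∫ t in a..τ, y t :=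
      intervalIntegral.integral_mono_interval ha.2.le (by linarith) (le_refl _)
        (ae_of_all _ fun t => hy t)
        (D.yii (by linarith [ha.1, hS'.2.1]) (by linarith [ha.2]) (le_refl _))
    have e4 := mul_le_mul_of_nonneg_left (sqrt_two_mul_le (h := h)) hM10.le
    nlinarith
  · nlinarith

end Pool.Agent.W597.HE
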